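import Pool.Agent.N658.TP.Stm3
import Pool.Agent.N79.TP.ReachB

/-!
# TP/ReachF: Reach in terms of the free energy (helper712)
-/

set_option autoImplicit false

open scoped BigOperators ComplexConjugate Classical InnerProductSpace Matrix ComplexOrder
open scoped Matrix.Norms.L2Operator

noncomputable section

namespace Pool.Agent.N712.TP

open Pool.Agent.N658.TP Pool.Agent.Y738.PE Pool.Agent.TH235 Pool.Agent.N163.TP Pool.Agent.N79.TP

/-- basis vectors are PEPS of bond dimension one -/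
theorem isPEPS_single {d L : ℕ} [NeZero L] (s : PP.Site L → Fin d) :
    PP.IsPEPS 1 (Pi.single s (1 : ℂ) : (PP.Site L → Fin d) → ℂ) := by
  refine ⟨fun x a _ _ _ _ => if a = s x then 1 else 0, ?_⟩
  funext t
  unfold PP.contract
  rw [Fintype.sum_unique, Fintype.sum_unique, Pi.single_apply]
  by_cases h : t = s
  · rw [if_pos h]
    symm
    exact Finset.prod_eq_one fun x _ => if_pos (congrFun h x)
  · rw [if_neg h]
    obtain ⟨x, hx⟩ := Function.ne_iff.1 h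
    symm
    exact Finset.prod_eq_zero (Finset.mem_univ x) (if_neg hx)

theorem term_smul {d R L : ℕ} (c : ℂ) (h : PP.BoxOp d R) (u : PP.Site L) :
    PP.term (c • h) u = c • PP.term h u := by
  ext s t
  rw [Matrix.smul_apply]
  unfold PP.term
  split_ifs
  · rfl
  · rw [smul_zero]

theorem ham_smul {d R L : ℕ} [NeZero L] (c : ℂ) (h : PP.BoxOp d R) :
    PP.ham (c • h) L = c • PP.ham h L := by
  unfold PP.ham
  rw [Finset.smul_sum]
  exact Finset.sum_congr rfl fun u _ => term_smul c h u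

theorem qf_smulA {n : Type} [Fintype n] (A : Matrix n n ℂ) (c : ℝ) (v : n → ℂ) :
    qf ((c : ℂ) • A) v = c * qf A v := by
  unfold qf PP.ip
  rw [Matrix.smul_mulVec]
  have : ∑ s, (starRingEnd ℂ) (v s) * ((c : ℂ) • A *ᵥ v) s =
      ((c : ℝ) : ℂ) * ∑ s, (starRingEnd ℂ) (v s) * (A *ᵥ v) s := by
    rw [Finset.mul_sum]
    refine Finset.sum_congr rfl fun s _ => ?_
    simp only [Pi.smul_apply, smul_eq_mul]
    ring
  rw [this, Complex.re_ofReal_mul]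

theorem herm_smul {n : Type} (A : Matrix n n ℂ) (hA : A.IsHermitian) (c : ℝ) :
    ((c : ℂ) • A).IsHermitian := by
  refine Matrix.IsHermitian.ext fun i j => ?_
  rw [Matrix.smul_apply, Matrix.smul_apply, smul_eq_mul, smul_eq_mul, star_mul', hA.apply]
  simp

theorem nJ_smul {d R : ℕ} (c : ℝ) (h : PP.BoxOp d R) :
    PP.nJ ((c : ℂ) • h) = |c| * PP.nJ h := by
  unfold PP.nJ
  rw [Finset.mul_sum]
  refine Finset.sum_congr rfl fun p _ => ?_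
  rw [Finset.mul_sum]
  refine Finset.sum_congr rfl fun q _ => ?_
  rw [Matrix.smul_apply, norm_smul, Complex.norm_real, Real.norm_eq_abs]

theorem expec_smul {d L r : ℕ} [NeZero L] (Ψ : Conf d L → ℂ) (v : Site L) (c : ℂ)
    (B : BConf d r → BConf d r → ℂ) :
    expec Ψ v (fun x y => c * B x y) = c * expec Ψ v B := by
  unfold expec
  rw [Finset.mul_sum]
  refine Finset.sum_congr rfl fun s _ => ?_
  rw [Finset.mul_sum]
  refine Finset.sum_congr rfl fun τ _ => ?_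
  ring

theorem enS_smul {d m r : ℕ} [NeZero m] (φ : Conf d m → ℂ) (c : ℂ)
    (B : BConf d r → BConf d r → ℂ) :
    enS φ (fun x y => c * B x y) = c * enS φ B := by
  unfold enS
  rw [Finset.mul_sum]
  exact Finset.sum_congr rfl fun u _ => expec_smul φ u c B

/-- a matrix with small entrywise norm is a contraction -/
theorem contr_of_sum {S : Type} [Fintype S] (B : S → S → ℂ) (h : ∑ p, ∑ q, ‖B p q‖ ≤ 1) :
    Contr B := by
  intro f
  unfold nrm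
  have h0 : 0 ≤ ∑ s, ‖f s‖ ^ 2 := Finset.sum_nonneg fun _ _ => by positivity
  set M : ℝ := Real.sqrt (∑ s, ‖f s‖ ^ 2) with hM
  have hM0 : 0 ≤ M := Real.sqrt_nonneg _
  have hM2 : M ^ 2 = ∑ s, ‖f s‖ ^ 2 := Real.sq_sqrt h0
  have hf : ∀ s, ‖f s‖ ≤ M := by
    intro s
    apply Real.le_sqrt_of_sq_le
    exact Finset.single_le_sum (f := fun s => ‖f s‖ ^ 2) (fun _ _ => by positivity)
      (Finset.mem_univ s)
  rw [← hM2]
  have h1 : ∀ σ, ‖∑ τ, B σ τ * f τ‖ ≤ (∑ τ, ‖B σ τ‖) * M := by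
    intro σ
    refine (norm_sum_le _ _).trans ?_
    rw [Finset.sum_mul]
    refine Finset.sum_le_sum fun τ _ => ?_
    rw [norm_mul]
    exact mul_le_mul_of_nonneg_left (hf τ) (norm_nonneg _)
  have h2 : ∀ σ, 0 ≤ ∑ τ, ‖B σ τ‖ := fun σ => Finset.sum_nonneg fun _ _ => norm_nonneg _
  have h3 : ∀ σ, ∑ τ, ‖B σ τ‖ ≤ 1 := by
    intro σ
    refine le_trans ?_ h
    exact Finset.single_le_sum (f := fun σ => ∑ τ, ‖B σ τ‖) (fun σ _ => h2 σ) (Finset.mem_univ σ)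
  calc ∑ σ, ‖∑ τ, B σ τ * f τ‖ ^ 2 ≤ ∑ σ, (∑ τ, ‖B σ τ‖) * M ^ 2 := by
        refine Finset.sum_le_sum fun σ _ => ?_
        calc ‖∑ τ, B σ τ * f τ‖ ^ 2 ≤ ((∑ τ, ‖B σ τ‖) * M) ^ 2 :=
              pow_le_pow_left₀ (norm_nonneg _) (h1 σ) 2
          _ = (∑ τ, ‖B σ τ‖) * (∑ τ, ‖B σ τ‖) * M ^ 2 := by ring
          _ ≤ (∑ τ, ‖B σ τ‖) * 1 * M ^ 2 := by
              have := mul_le_mul_of_nonneg_left (h3 σ) (h2 σ)
              exact mul_le_mul_of_nonneg_right this (by positivity)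
          _ = _ := by ring
    _ = (∑ σ, ∑ τ, ‖B σ τ‖) * M ^ 2 := by rw [Finset.sum_mul]
    _ ≤ 1 * M ^ 2 := mul_le_mul_of_nonneg_right h (by positivity)
    _ = M ^ 2 := one_mul _

/-- the numbers of the energy estimate -/
theorem num_enF (n m β κ ε τ0 τ1 J0 j0 r R' J' C E0 Eφ Eh HH P lg : ℝ) (hm : m = 2 * n)
    (hm1 : 1 ≤ m) (hβ : 0 ≤ β) (hκ : 0 ≤ κ) (hε : 0 < ε) (hτ0 : 0 < τ0) (hτ1 : 0 < τ1)
    (hR : 0 ≤ R') (hJ' : 1 ≤ J')
    (hj0 : j0 ≤ β / (4 * τ0) + 1) (hJ : (1 + κ / ε) / (4 * τ1) ≤ J0)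
    (hC4 : 4 ≤ C) (hCr : 6 * r ≤ C) (hCτ : 2 / τ1 ≤ C)
    (hCA : 6 * R' * J' + 4 / τ0 + 16 ≤ C)
    (hCm : C * (1 + β) / ε ≤ m) (hE : Eφ ≤ m ^ 2 * E0 + 12 * r * n)
    (hH : HH ≤ m ^ 2 * Eh + 12 * R' * n * J') (hlg : lg + β * (m ^ 2 * Eh) ≤ κ * m ^ 2)
    (hP : P ≤ β * HH + lg + 16 * j0) :
    Eφ + P / (4 * J0 * τ1) + 4 * (1 / 2) / τ1 ≤ (E0 + C * ε) * m ^ 2 := by
  have hmε : C * (1 + β) ≤ m * ε := by rwa [div_le_iff₀ hε] at hCm
  have hm0 : 0 < m := by linarith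
  have hC0 : 0 < C := by linarith
  have hCm2 : C * m ≤ ε * m ^ 2 := by
    have : C ≤ m * ε := by nlinarith
    nlinarith
  have hCβ : C * (1 + β) * m ≤ ε * m ^ 2 := by
    have := mul_le_mul_of_nonneg_right hmε hm0.le
    nlinarith
  have hκε : 0 ≤ κ / ε := by positivity
  have hJ4 : 1 + κ / ε ≤ 4 * J0 * τ1 := by
    rw [div_le_iff₀ (by positivity)] at hJ
    linarith
  have hJpos : 0 < 4 * J0 * τ1 := by linarith
  -- bound for `P`
  have hP1 : P ≤ κ * m ^ 2 + C * (1 + β) * m := by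
    have h1 : β * HH ≤ β * (m ^ 2 * Eh + 12 * R' * n * J') := mul_le_mul_of_nonneg_left hH hβ
    have h2 : 16 * j0 ≤ 4 / τ0 * β + 16 := by
      have e : 16 * (β / (4 * τ0) + 1) = 4 / τ0 * β + 16 := by
        field_simp
        ring
      linarith
    have h3 : P ≤ κ * m ^ 2 + (6 * R' * J' * m * β + 4 / τ0 * β + 16) := by
      have e : β * (m ^ 2 * Eh + 12 * R' * n * J') = β * (m ^ 2 * Eh) + 6 * R' * J' * m * β := by
        rw [hm]; ring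
      linarith
    refine h3.trans ?_
    have h4 : 6 * R' * J' * m * β + 4 / τ0 * β + 16 ≤ (6 * R' * J' + 4 / τ0 + 16) * (1 + β) * m := by
      have a1 : 0 ≤ R' * J' := by positivity
      have a2 : 0 ≤ 4 / τ0 := by positivity
      have a3 : 0 ≤ R' * J' * m := by positivity
      have a4 : 4 / τ0 * β ≤ 4 / τ0 * β * m := by
        have : 0 ≤ 4 / τ0 * β := by positivity
        nlinarith
      have a5 : 0 ≤ 4 / τ0 * m := by positivity
      have a6 : 0 ≤ β * m := by positivity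
      nlinarith
    have h5 : (6 * R' * J' + 4 / τ0 + 16) * (1 + β) * m ≤ C * (1 + β) * m := by
      have : 0 ≤ (1 + β) * m := by positivity
      have := mul_le_mul_of_nonneg_right hCA this
      nlinarith
    linarith
  have h2 : P / (4 * J0 * τ1) ≤ 2 * (ε * m ^ 2) := by
    rw [div_le_iff₀ hJpos]
    refine hP1.trans ?_
    have h6 : κ * m ^ 2 = (κ / ε) * (ε * m ^ 2) := by field_simp
    have h7 : 0 ≤ ε * m ^ 2 := by positivity
    have h8 : (1 + κ / ε) * (2 * (ε * m ^ 2)) ≤ 2 * (ε * m ^ 2) * (4 * J0 * τ1) := by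
      have := mul_le_mul_of_nonneg_left hJ4 (by positivity : 0 ≤ 2 * (ε * m ^ 2))
      linarith
    refine le_trans ?_ h8
    rw [h6]
    have h9 : 0 ≤ κ / ε * (ε * m ^ 2) := by positivity
    nlinarith
  have h3 : 4 * (1 / 2) / τ1 ≤ ε * m ^ 2 := by
    have e : 4 * (1 / 2) / τ1 = 2 / τ1 := by ring
    rw [e]
    nlinarith
  have h4 : 12 * r * n ≤ ε * m ^ 2 := by
    have e : 12 * r * n = 6 * r * m := by rw [hm]; ring
    rw [e]
    nlinarith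
  have h5 : 0 ≤ ε * m ^ 2 := by positivity
  nlinarith

/-- the numbers of the bond dimension -/
theorem num_bdF (W0 W1 j0 j J0 : ℕ) (β x τ0 τ1 C0 C1 C lm : ℝ) (hβ : 0 ≤ β) (hx : 0 ≤ x)
    (hτ0 : 0 < τ0) (hτ1 : 0 < τ1) (hC0 : 0 < C0) (hC1 : 0 < C1) (hlm : 0 ≤ lm)
    (hW0 : (W0 : ℝ) ≤ Real.exp (C0 * lm)) (hW1 : (W1 : ℝ) ≤ Real.exp (C1 * lm))
    (hj0 : (j0 : ℝ) ≤ β / (4 * τ0) + 1) (hj : j ≤ J0)
    (hJ : (J0 : ℝ) ≤ (1 + x) / (4 * τ1) + 2)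
    (hCa : C0 / (2 * τ0) ≤ C) (hCb : C1 / (2 * τ1) ≤ C)
    (hCc : 2 * C0 + C1 / (2 * τ1) + 4 * C1 ≤ C) :
    ((1 * (W0 * W0) ^ j0 * (W1 * W1) ^ j : ℕ) : ℝ) ≤ Real.exp (C * (1 + β + x) * lm) := by
  have key : ∀ (W : ℕ) (c : ℝ) (a b : ℕ), 0 < c → (W : ℝ) ≤ Real.exp (c * lm) → a ≤ b →
      ((W : ℝ) * W) ^ a ≤ Real.exp ((b : ℝ) * (2 * (c * lm))) := by
    intro W c a b hc hW hab
    have h3 : (W : ℝ) * W ≤ Real.exp (2 * (c * lm)) := by
      rw [two_mul, Real.exp_add]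
      exact mul_le_mul hW hW (Nat.cast_nonneg _) (Real.exp_pos _).le
    calc ((W : ℝ) * W) ^ a ≤ (Real.exp (2 * (c * lm))) ^ a :=
          pow_le_pow_left₀ (by positivity) h3 a
      _ = Real.exp ((a : ℝ) * (2 * (c * lm))) := (Real.exp_nat_mul _ _).symm
      _ ≤ Real.exp ((b : ℝ) * (2 * (c * lm))) := by
          apply Real.exp_le_exp.2
          exact mul_le_mul_of_nonneg_right (by exact_mod_cast hab) (by positivity)
  have k0 := key W0 C0 j0 j0 hC0 hW0 le_rfl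
  have k1 := key W1 C1 j J0 hC1 hW1 hj
  push_cast
  rw [one_mul]
  refine (mul_le_mul k0 k1 (by positivity) (Real.exp_pos _).le).trans ?_
  rw [← Real.exp_add]
  apply Real.exp_le_exp.2
  have g1 : (j0 : ℝ) * (2 * C0) ≤ β * (C0 / (2 * τ0)) + 2 * C0 := by
    have h7 : (j0 : ℝ) * (2 * C0) ≤ (β / (4 * τ0) + 1) * (2 * C0) :=
      mul_le_mul_of_nonneg_right hj0 (by positivity)
    have h8 : (β / (4 * τ0) + 1) * (2 * C0) = β * (C0 / (2 * τ0)) + 2 * C0 := by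
      field_simp
      ring
    linarith
  have g2 : (J0 : ℝ) * (2 * C1) ≤ x * (C1 / (2 * τ1)) + C1 / (2 * τ1) + 4 * C1 := by
    have h7 : (J0 : ℝ) * (2 * C1) ≤ ((1 + x) / (4 * τ1) + 2) * (2 * C1) :=
      mul_le_mul_of_nonneg_right hJ (by positivity)
    have h8 : ((1 + x) / (4 * τ1) + 2) * (2 * C1) =
        x * (C1 / (2 * τ1)) + C1 / (2 * τ1) + 4 * C1 := by
      field_simp
      ring
    linarith
  have g3 : β * (C0 / (2 * τ0)) ≤ β * C := mul_le_mul_of_nonneg_left hCa hβ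
  have g4 : x * (C1 / (2 * τ1)) ≤ x * C := mul_le_mul_of_nonneg_left hCb hx
  have g5 : (j0 : ℝ) * (2 * C0) + (J0 : ℝ) * (2 * C1) ≤ C * (1 + β + x) := by linarith
  calc (j0 : ℝ) * (2 * (C0 * lm)) + (J0 : ℝ) * (2 * (C1 * lm)) =
        ((j0 : ℝ) * (2 * C0) + (J0 : ℝ) * (2 * C1)) * lm := by ring
    _ ≤ _ := mul_le_mul_of_nonneg_right g5 hlm

theorem reachF (h1 : StmTel) (h2 : StmSlice) (h3 : StmRefF) (h4 : StmCmpF) : StmReachF := by
  intro d r R' J hd hr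
  obtain ⟨r', rfl⟩ : ∃ r', r = r' + 1 := ⟨r - 1, by omega⟩
  set J' : ℝ := max J 1 with hJ'
  have hJ'1 : 1 ≤ J' := le_max_right _ _
  have hJJ' : J ≤ J' := le_max_left _ _
  obtain ⟨τ0, hτ0, C0, hC0, H0⟩ := h2 d R' J' hd
  obtain ⟨τ1, hτ1, C1, hC1, H2⟩ := h2 d r' (((Fintype.card (BConf d (r' + 1)) : ℕ) : ℝ) *
    ((Fintype.card (BConf d (r' + 1)) : ℕ) : ℝ)) hd
  set A : ℝ := 6 * ((R' + 1 : ℕ) : ℝ) * J' + 4 / τ0 + 16 with hA
  set C : ℝ := 4 + 6 * ((r' + 1 : ℕ) : ℝ) + 6 * ((R' + 1 : ℕ) : ℝ) + 2 / τ1 + A + C0 / (2 * τ0) +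
    (2 * C0 + C1 / (2 * τ1) + 4 * C1) with hC
  have e1 : 0 ≤ 6 * ((r' + 1 : ℕ) : ℝ) := by positivity
  have e2 : 0 ≤ 6 * ((R' + 1 : ℕ) : ℝ) := by positivity
  have e3 : 0 ≤ 2 / τ1 := by positivity
  have e4 : 0 ≤ A := by rw [hA]; positivity
  have e5 : 0 ≤ C0 / (2 * τ0) := by positivity
  have e6 : 0 ≤ C1 / (2 * τ1) := by positivity
  have hCpos : 0 < C := by rw [hC]; linarith
  refine ⟨C, hCpos, ?_⟩
  intro n L _ _ hnL ε hε hε1 β hβ hCm Ψ hΨ hTI h hh hhJ κ hκ hfree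
  have hn : 0 < n := by
    have := NeZero.pos (2 * n)
    omega
  have hCβ : C ≤ C * (1 + β) / ε := by
    rw [le_div_iff₀ hε]
    nlinarith
  have hrn : r' + 1 ≤ n := by
    have g1 : 6 * ((r' + 1 : ℕ) : ℝ) ≤ ((2 * n : ℕ) : ℝ) := by
      have : 6 * ((r' + 1 : ℕ) : ℝ) ≤ C := by rw [hC]; linarith
      linarith
    have g2 : 6 * (r' + 1) ≤ 2 * n := by exact_mod_cast g1
    omega
  have hRn : R' + 1 ≤ n := by
    have g1 : 6 * ((R' + 1 : ℕ) : ℝ) ≤ ((2 * n : ℕ) : ℝ) := by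
      have : 6 * ((R' + 1 : ℕ) : ℝ) ≤ C := by rw [hC]; linarith
      linarith
    have g2 : 6 * (R' + 1) ≤ 2 * n := by exact_mod_cast g1
    omega
  have hrm : r' + 1 ≤ 2 * n := by omega
  have hRm : R' + 1 ≤ 2 * n := by omega
  have hm2 : 2 ≤ 2 * n := by omega
  obtain ⟨φ, hφ, hφE⟩ := h4 d n L hn hnL Ψ hΨ hTI
  -- the reference interaction
  set j0 : ℕ := ⌈β / (4 * τ0)⌉₊ with hj0
  have hb4 : 0 ≤ β / (4 * τ0) := by positivity
  have hj0a : β / (4 * τ0) ≤ j0 := Nat.le_ceil _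
  have hj0b : (j0 : ℝ) ≤ β / (4 * τ0) + 1 := (Nat.ceil_lt_add_one hb4).le
  set sc : ℝ := β / (4 * j0 * τ0) with hsc
  have hsc0 : 0 ≤ sc := by positivity
  have hβj : β ≤ 4 * j0 * τ0 := by
    rw [div_le_iff₀ (by positivity)] at hj0a
    linarith
  have hsc1 : sc ≤ 1 := div_le_one_of_le₀ hβj (by positivity)
  have hscβ : 4 * j0 * τ0 * sc = β := by
    rcases Nat.eq_zero_or_pos j0 with hz | hz
    · rw [hz] at hβj ⊢
      simp only [Nat.cast_zero, mul_zero, zero_mul] at hβj ⊢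
      linarith
    · have : (0 : ℝ) < j0 := by exact_mod_cast hz
      rw [hsc]
      field_simp
  obtain ⟨W0, hW0, H0'⟩ := H0 (2 * n) hm2 hRm
  have hnJ : PP.nJ ((sc : ℂ) • h) ≤ J' := by
    rw [nJ_smul, abs_of_nonneg hsc0]
    have := mul_le_of_le_one_left (PP.nJ_nonneg h) hsc1
    linarith
  obtain ⟨T0, hT0, hT0P⟩ := H0' ((sc : ℂ) • h) (herm_smul h hh sc) hnJ
  have : Nonempty (Conf d (2 * n)) := ⟨fun _ => ⟨0, by omega⟩⟩
  obtain ⟨q, Γ, hq, hΓ, hΓe, hΓt, hΓφ⟩ := h3 (Conf d (2 * n)) (PP.ham ((sc : ℂ) • h) (2 * n)) T0 τ0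
    j0 (PP.ham_herm _ (herm_smul h hh sc)) hτ0 hT0
  have hΓφ' := hΓφ φ hφ
  rw [ham_smul, qf_smulA, smul_smul] at hΓφ'
  have hcast : ((-(4 * (j0 : ℝ) * τ0) : ℝ) : ℂ) * (sc : ℂ) = ((-β : ℝ) : ℂ) := by
    rw [← Complex.ofReal_mul]
    congr 1
    rw [← hscβ]; ring
  rw [hcast] at hΓφ'
  -- the energy of `φ` for `h`
  have hH : qf (PP.ham h (2 * n)) φ ≤ ((2 * n : ℕ) : ℝ) ^ 2 * (expec Ψ 0 (fun x y => h x y)).re +
      12 * ((R' + 1 : ℕ) : ℝ) * n * J' := by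
    have g4 : qf (PP.ham h (2 * n)) φ = (enS φ (fun x y => h x y)).re := by
      unfold qf
      rw [← ip_ham hRm (fun x y => h x y)]
      rfl
    have hJ0' : (0 : ℝ) < J' := by linarith
    have hct : Contr (fun x y => ((J'⁻¹ : ℝ) : ℂ) * h x y) := by
      apply contr_of_sum
      have : ∑ p, ∑ q, ‖((J'⁻¹ : ℝ) : ℂ) * h p q‖ = J'⁻¹ * PP.nJ h := by
        unfold PP.nJ
        rw [Finset.mul_sum]
        refine Finset.sum_congr rfl fun p _ => ?_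
        rw [Finset.mul_sum]
        refine Finset.sum_congr rfl fun q _ => ?_
        rw [norm_mul, Complex.norm_real, Real.norm_eq_abs, abs_of_pos (inv_pos.2 hJ0')]
      rw [this, inv_mul_le_iff₀ hJ0']
      linarith
    have g5 : ‖((J'⁻¹ : ℝ) : ℂ) * enS φ (fun x y => h x y) - ((2 * n : ℕ) : ℂ) ^ 2 *
        (((J'⁻¹ : ℝ) : ℂ) * expec Ψ 0 (fun x y => h x y))‖ ≤ 12 * ((R' + 1 : ℕ) : ℝ) * n := by
      rw [← enS_smul φ _ (fun x y => h x y), ← expec_smul Ψ 0 _ (fun x y => h x y)]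
      exact hφE (R' + 1) (Nat.succ_pos _) hRn _ hct
    have g6 : ((J'⁻¹ : ℝ) : ℂ) * enS φ (fun x y => h x y) - ((2 * n : ℕ) : ℂ) ^ 2 *
        (((J'⁻¹ : ℝ) : ℂ) * expec Ψ 0 (fun x y => h x y)) =
        ((J'⁻¹ : ℝ) : ℂ) * (enS φ (fun x y => h x y) - ((2 * n : ℕ) : ℂ) ^ 2 *
          expec Ψ 0 (fun x y => h x y)) := by ring
    rw [g6, norm_mul, Complex.norm_real, Real.norm_eq_abs, abs_of_pos (inv_pos.2 hJ0'),
      inv_mul_le_iff₀ hJ0'] at g5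
    have g7 := (Complex.abs_re_le_norm _).trans g5
    rw [Complex.sub_re] at g7
    have g8 : (((2 * n : ℕ) : ℂ) ^ 2 * expec Ψ 0 (fun x y => h x y)).re =
        ((2 * n : ℕ) : ℝ) ^ 2 * (expec Ψ 0 (fun x y => h x y)).re := by
      have : (((2 * n : ℕ) : ℂ) ^ 2) = ((((2 * n : ℕ) : ℝ) ^ 2 : ℝ) : ℂ) := by
        push_cast; ring
      rw [this, Complex.re_ofReal_mul]
    rw [g8] at g7
    have g9 := (abs_le.1 g7).2
    rw [g4]
    push_cast at g9 ⊢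
    linarith
  -- the slices for the directions
  set x : ℝ := κ / ε with hx
  have hx0 : 0 ≤ x := by positivity
  have hx1 : 0 ≤ (1 + x) / (4 * τ1) := by positivity
  set J0 : ℕ := ⌈(1 + x) / (4 * τ1)⌉₊ + 1 with hJ0
  have hJx : (1 + x) / (4 * τ1) ≤ J0 := by
    rw [hJ0]; push_cast
    linarith [Nat.le_ceil ((1 + x) / (4 * τ1))]
  have hJx2 : (J0 : ℝ) ≤ (1 + x) / (4 * τ1) + 2 := by
    rw [hJ0]; push_cast
    linarith [Nat.ceil_lt_add_one hx1]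
  obtain ⟨W1, hW1, H3⟩ := H2 (2 * n) hm2 hrm
  have hlm : 0 ≤ Real.log ((2 * n : ℕ) : ℝ) := Real.log_natCast_nonneg _
  refine ⟨⌊Real.exp (C * (1 + β + x) * Real.log ((2 * n : ℕ) : ℝ))⌋₊,
    Nat.floor_le (Real.exp_pos _).le, ?_⟩
  intro B hB hBc
  have hherm : (Matrix.of B : PP.BoxOp d (r' + 1)).IsHermitian := by
    refine Matrix.IsHermitian.ext fun i j => ?_
    show star (B j i) = B i j
    rw [hB i j]
    simp
  have hJB : PP.nJ (Matrix.of B : PP.BoxOp d (r' + 1)) ≤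
      ((Fintype.card (BConf d (r' + 1)) : ℕ) : ℝ) *
        ((Fintype.card (BConf d (r' + 1)) : ℕ) : ℝ) := by
    unfold PP.nJ
    calc ∑ p : BConf d (r' + 1), ∑ q : BConf d (r' + 1), ‖Matrix.of B p q‖
        ≤ ∑ _p : BConf d (r' + 1), ∑ _q : BConf d (r' + 1), (1 : ℝ) :=
          Finset.sum_le_sum fun p _ => Finset.sum_le_sum fun q _ => contr_entry B hBc p q
      _ = _ := by
        simp only [Finset.sum_const, Finset.card_univ, nsmul_eq_mul, mul_one]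
  obtain ⟨T, hT, hTP⟩ := H3 (Matrix.of B) hherm hJB
  obtain ⟨j, hj, s, hv0, hvE⟩ := h1 (Conf d (2 * n)) (PP.ham (Matrix.of B) (2 * n)) T Γ τ1
    (1 / 2) J0 (Conf d (2 * n)) (fun _ => q)
    (fun s => (T0ᴴ * T0) ^ j0 *ᵥ Pi.single s (1 : ℂ))
    (PP.ham_herm _ hherm) hΓ hτ1 (by norm_num) le_rfl (by omega) hT (fun _ => hq) hΓe hΓt φ hφ
  have hseed : PP.IsPEPS (1 * (W0 * W0) ^ j0) ((T0ᴴ * T0) ^ j0 *ᵥ Pi.single s (1 : ℂ)) :=
    isPEPS_pow T0 W0 hT0P _ _ (isPEPS_single s) j0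
  have hpeps := isPEPS_pow T W1 hTP _ _ hseed j
  set v : Conf d (2 * n) → ℂ :=
    (Tᴴ * T) ^ j *ᵥ ((T0ᴴ * T0) ^ j0 *ᵥ Pi.single s (1 : ℂ)) with hv
  set c : ℝ := (Real.sqrt (nsq v))⁻¹ with hc
  have hc2 : c ^ 2 * nsq v = 1 := by
    rw [hc, inv_pow, Real.sq_sqrt hv0.le, inv_mul_cancel₀ hv0.ne']
  obtain ⟨Ac, hAc⟩ := hpeps.smul (c : ℂ)
  have hDf : 1 * (W0 * W0) ^ j0 * (W1 * W1) ^ j ≤
      ⌊Real.exp (C * (1 + β + x) * Real.log ((2 * n : ℕ) : ℝ))⌋₊ :=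
    Nat.le_floor (num_bdF W0 W1 j0 j J0 β x τ0 τ1 C0 C1 C _ hβ hx0 hτ0 hτ1 hC0 hC1 hlm hW0 hW1 hj0b
      hj hJx2 (by rw [hC]; linarith) (by rw [hC]; linarith) (by rw [hC]; linarith))
  refine ⟨padT _ Ac, ?_, ?_⟩
  · rw [pepsN_pad hDf, ← hAc]
    exact (nsq_smul c v).trans hc2
  · rw [pepsN_pad hDf, ← hAc, ← ip_ham hrm B]
    have g1 : (PP.ip ((c : ℂ) • v) (PP.ham (Matrix.of B) (2 * n) *ᵥ ((c : ℂ) • v))).re =
        c ^ 2 * qf (PP.ham (Matrix.of B) (2 * n)) v := qf_smul _ c v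
    rw [g1]
    have g2 : c ^ 2 * qf (PP.ham (Matrix.of B) (2 * n)) v ≤
        qf (PP.ham (Matrix.of B) (2 * n)) φ + (-qf Γ φ) / (4 * J0 * τ1) + 4 * (1 / 2) / τ1 := by
      have := mul_le_mul_of_nonneg_left hvE (sq_nonneg c)
      refine this.trans (le_of_eq ?_)
      rw [mul_comm _ (nsq v), ← mul_assoc, hc2, one_mul]
    refine g2.trans ?_
    have g3 : qf (PP.ham (Matrix.of B) (2 * n)) φ ≤
        ((2 * n : ℕ) : ℝ) ^ 2 * (expec Ψ 0 B).re + 12 * ((r' + 1 : ℕ) : ℝ) * (n : ℝ) := by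
      have g4 : qf (PP.ham (Matrix.of B) (2 * n)) φ = (enS φ B).re := by
        unfold qf
        rw [ip_ham hrm B]
      have g5 := (Complex.abs_re_le_norm _).trans (hφE (r' + 1) (Nat.succ_pos _) hrn B hBc)
      rw [Complex.sub_re] at g5
      have g6 : (((2 * n : ℕ) : ℂ) ^ 2 * expec Ψ 0 B).re =
          ((2 * n : ℕ) : ℝ) ^ 2 * (expec Ψ 0 B).re := by
        have : (((2 * n : ℕ) : ℂ) ^ 2) = ((((2 * n : ℕ) : ℝ) ^ 2 : ℝ) : ℂ) := by
          push_cast; ring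
        rw [this, Complex.re_ofReal_mul]
      rw [g6] at g5
      have g7 := (abs_le.1 g5).2
      rw [g4]
      push_cast at g7 ⊢
      linarith
    refine num_enF (n : ℝ) ((2 * n : ℕ) : ℝ) β κ ε τ0 τ1 J0 j0 ((r' + 1 : ℕ) : ℝ)
      ((R' + 1 : ℕ) : ℝ) J' C (expec Ψ 0 B).re _ (expec Ψ 0 (fun x y => h x y)).re
      (qf (PP.ham h (2 * n)) φ) _
      (Real.log (NormedSpace.exp (((-β : ℝ) : ℂ) • PP.ham h (2 * n))).trace.re)
      (by push_cast; ring) (by exact_mod_cast (by omega : 1 ≤ 2 * n)) hβ hκ hε hτ0 hτ1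
      (by positivity) hJ'1 hj0b hJx (by rw [hC]; linarith) (by rw [hC]; linarith)
      (by rw [hC]; linarith) (by rw [hC]; linarith) hCm g3 hH hfree ?_
    have e : β * qf (PP.ham h (2 * n)) φ = 4 * j0 * τ0 * (sc * qf (PP.ham h (2 * n)) φ) := by
      rw [← mul_assoc, hscβ]
    rw [e]
    exact hΓφ'

end Pool.Agent.N712.TP
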